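import Pool.Agent.W839.HM.Rec

/-!
# Project HM, part SUB: elimination of a chain
-/

namespace Pool.Agent.W839.HM

open Pool.Agent.W894.HT

variable {N A : Type} [DecidableEq N] [CommRing A]

/-- weights during the elimination of the chain `y 1, y 2, ...` -/
def Ph (r : A) (φ : N → N → A) (y : ℕ → N) (k : ℕ) (a b : N) : A :=
  (if (a = y 0 ∧ b = y 1) ∨ (a = y 1 ∧ b = y 0) then 0 else φ a b) +
  (if a = y 0 ∧ b = y (k + 1) then
    r ^ k * ∏ i ∈ Finset.range (k + 1), φ (y i) (y (i + 1)) else 0) +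
  (if a = y (k + 1) ∧ b = y 0 then
    r ^ k * ∏ i ∈ Finset.range (k + 1), φ (y (i + 1)) (y i) else 0)

lemma Ph_off {r : A} {φ : N → N → A} {y : ℕ → N} {k : ℕ} {a b : N}
    (h1 : ¬ (a = y 0 ∧ b = y (k + 1))) (h2 : ¬ (a = y (k + 1) ∧ b = y 0)) :
    Ph r φ y k a b = if (a = y 0 ∧ b = y 1) ∨ (a = y 1 ∧ b = y 0) then 0 else φ a b := by
  unfold Ph
  rw [if_neg h1, if_neg h2, add_zero, add_zero]

lemma chain (r : A) (φ : N → N → A) (y : ℕ → N) (e x : N) (K n : ℕ) (V : Finset N)
    (hn : V.card ≤ n) (hxV : x ∉ V) (heV : e ∉ V) (hxe : x ≠ e)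
    (hinj : ∀ i j, i ≤ K + 1 → j ≤ K + 1 → y i = y j → i = j)
    (hyV : ∀ i, 1 ≤ i → i ≤ K → y i ∉ V ∧ y i ≠ x ∧ y i ≠ e)
    (h0 : y 0 = x ∨ y 0 = e ∨ y 0 ∈ V)
    (h1 : ∀ i, 1 ≤ i → i ≤ K → ∀ t, t = x ∨ t = e ∨ t ∈ V → t ≠ y (i - 1) → t ≠ y (i + 1) →
      φ t (y i) = 0 ∧ φ (y i) t = 0)
    (h2 : ∀ i j, 1 ≤ i → i ≤ K → 1 ≤ j → j ≤ K → i + 1 ≠ j → j + 1 ≠ i → φ (y i) (y j) = 0) :
    ∀ k, k ≤ K → PF r φ e (n + K) x (V ∪ (Finset.Ico 1 (K + 1)).image y) =
      PF r (Ph r φ y k) e (n + (K - k)) x (V ∪ (Finset.Ico (k + 1) (K + 1)).image y) := by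
  intro k
  induction k with
  | zero =>
    intro _
    have : Ph r φ y 0 = φ := by
      funext a b
      have hne : y 0 ≠ y 1 := fun h => by
        have := hinj 0 1 (by omega) (by omega) h
        omega
      unfold Ph
      by_cases ha : a = y 0 ∧ b = y 1
      · obtain ⟨rfl, rfl⟩ := ha
        simp [hne]
      · by_cases hb : a = y 1 ∧ b = y 0
        · obtain ⟨rfl, rfl⟩ := hb
          simp [hne.symm]
        · simp [ha, hb]
    rw [this]
    rfl
  | succ k ih =>
    intro hk
    rw [ih (by omega)]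
    have hz := hyV (k + 1) (by omega) hk
    have hset : V ∪ (Finset.Ico (k + 1) (K + 1)).image y =
        insert (y (k + 1)) (V ∪ (Finset.Ico (k + 1 + 1) (K + 1)).image y) := by
      rw [← Finset.insert_Ico_succ_left_eq_Ico (by omega : k + 1 < K + 1), Finset.image_insert,
        Finset.union_insert]
      rfl
    have hnk : n + (K - k) = (n + (K - (k + 1))) + 1 := by omega
    have hW : ∀ t, t ∈ V ∪ (Finset.Ico (k + 1 + 1) (K + 1)).image y ↔
        t ∈ V ∨ ∃ j, k + 2 ≤ j ∧ j ≤ K ∧ y j = t := by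
      intro t
      rw [Finset.mem_union, Finset.mem_image]
      constructor
      · rintro (h | ⟨j, hj, rfl⟩)
        · exact Or.inl h
        · rw [Finset.mem_Ico] at hj
          exact Or.inr ⟨j, by omega, by omega, rfl⟩
      · rintro (h | ⟨j, hj, hj', rfl⟩)
        · exact Or.inl h
        · exact Or.inr ⟨j, by rw [Finset.mem_Ico]; omega, rfl⟩
    have hzW : y (k + 1) ∉ V ∪ (Finset.Ico (k + 1 + 1) (K + 1)).image y := by
      rw [hW]
      rintro (h | ⟨j, hj, hj', h⟩)
      · exact hz.1 h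
      · have := hinj _ _ (by omega) (by omega) h
        omega
    have hxW : x ∉ V ∪ (Finset.Ico (k + 1 + 1) (K + 1)).image y := by
      rw [hW]
      rintro (h | ⟨j, hj, hj', h⟩)
      · exact hxV h
      · exact (hyV j (by omega) hj').2.1 h
    have heW : e ∉ V ∪ (Finset.Ico (k + 1 + 1) (K + 1)).image y := by
      rw [hW]
      rintro (h | ⟨j, hj, hj', h⟩)
      · exact heV h
      · exact (hyV j (by omega) hj').2.2 h
    have hcard : (V ∪ (Finset.Ico (k + 1 + 1) (K + 1)).image y).card ≤ n + (K - (k + 1)) := by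
      refine (Finset.card_union_le _ _).trans (add_le_add hn ?_)
      refine Finset.card_image_le.trans ?_
      rw [Nat.card_Ico]
      omega
    have y0 : ∀ j, 1 ≤ j → j ≤ K + 1 → y 0 ≠ y j := fun j hj hj' h => by
      have := hinj _ _ (by omega) hj' h
      omega
    -- the neighbours of `y (k + 1)`
    have hnb : ∀ t, t = x ∨ t = e ∨ t ∈ V ∪ (Finset.Ico (k + 1 + 1) (K + 1)).image y →
        t ≠ y 0 → t ≠ y (k + 2) → φ t (y (k + 1)) = 0 ∧ φ (y (k + 1)) t = 0 := by
      intro t ht ht0 ht2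
      have hT : (t = x ∨ t = e ∨ t ∈ V) → φ t (y (k + 1)) = 0 ∧ φ (y (k + 1)) t = 0 := by
        intro hT
        refine h1 (k + 1) (by omega) hk t hT ?_ ht2
        rw [Nat.add_sub_cancel]
        rintro rfl
        rcases Nat.eq_zero_or_pos k with h | h
        · subst h
          exact ht0 rfl
        · have := hyV k h (by omega)
          rcases hT with h' | h' | h'
          · exact this.2.1 h'
          · exact this.2.2 h'
          · exact this.1 h'
      rcases ht with rfl | rfl | ht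
      · exact hT (Or.inl rfl)
      · exact hT (Or.inr (Or.inl rfl))
      · rw [hW] at ht
        rcases ht with h | ⟨j, hj, hj', rfl⟩
        · exact hT (Or.inr (Or.inr h))
        · have hne : j ≠ k + 2 := fun h => ht2 (by rw [h])
          exact ⟨h2 j (k + 1) (by omega) hj' (by omega) hk (by omega) (by omega),
            h2 (k + 1) j (by omega) hk (by omega) hj' (by omega) (by omega)⟩
    rw [hset, hnk, deg2 r (Ph r φ y k) e (y 0) (y (k + 2)) (y (k + 1)) (n + (K - (k + 1))) x _ hcard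
      hzW hxW hz.2.1 heW hxe]
    · -- compare the weights
      refine PF_congr r _ _ e _ x _ hcard hxW ?_
      have hne : ∀ a, (a = x ∨ a = e ∨ a ∈ V ∪ (Finset.Ico (k + 1 + 1) (K + 1)).image y) →
          a ≠ y (k + 1) := by
        rintro a (h | h | h) rfl
        · exact hz.2.1 h
        · exact hz.2.2 h
        · exact hzW h
      intro a ha b hb
      have ha' := hne a (by rcases ha with h | h; exacts [Or.inl h, Or.inr (Or.inr h)])
      have hb' := hne b (by rcases hb with h | h; exacts [Or.inr (Or.inl h), Or.inr (Or.inr h)])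
      have y12 : y (k + 1) ≠ y (k + 2) := fun h => by
        have := hinj _ _ (by omega) (by omega) h
        omega
      have y02 : y 0 ≠ y (k + 2) := y0 _ (by omega) (by omega)
      have y01 : y 0 ≠ y (k + 1) := y0 _ (by omega) (by omega)
      have p1 : Ph r φ y k a b =
          if (a = y 0 ∧ b = y 1) ∨ (a = y 1 ∧ b = y 0) then 0 else φ a b := by
        exact Ph_off (fun h => hb' h.2) (fun h => ha' h.1)
      have q0 : (if (y 0 = y 0 ∧ y (k + 1) = y 1) ∨ (y 0 = y 1 ∧ y (k + 1) = y 0) then 0 else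
          φ (y 0) (y (k + 1))) = 0 := by
        split_ifs with h
        · rfl
        · have hk0 : k ≠ 0 := by
            rintro rfl
            exact h (Or.inl ⟨rfl, rfl⟩)
          refine (h1 (k + 1) (by omega) hk (y 0) h0 ?_ y02).1
          rw [Nat.add_sub_cancel]
          exact y0 _ (by omega) (by omega)
      have q0' : (if (y (k + 1) = y 0 ∧ y 0 = y 1) ∨ (y (k + 1) = y 1 ∧ y 0 = y 0) then 0 else
          φ (y (k + 1)) (y 0)) = 0 := by
        split_ifs with h
        · rfl
        · have hk0 : k ≠ 0 := by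
            rintro rfl
            exact h (Or.inr ⟨rfl, rfl⟩)
          refine (h1 (k + 1) (by omega) hk (y 0) h0 ?_ y02).2
          rw [Nat.add_sub_cancel]
          exact y0 _ (by omega) (by omega)
      have n01 : ¬ (y 0 = y (k + 1) ∧ y (k + 1) = y 0) := fun h => y01 h.1
      have n02 : ¬ (y 0 = y (k + 2) ∧ y (k + 2) = y 0) := fun h => y02 h.1
      have n10 : ¬ (y (k + 1) = y 0 ∧ y 0 = y (k + 1)) := fun h => y01 h.2
      have n20 : ¬ (y (k + 2) = y 0 ∧ y 0 = y (k + 2)) := fun h => y02 h.2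
      have p2 : Ph r φ y k (y 0) (y (k + 1)) =
          r ^ k * ∏ i ∈ Finset.range (k + 1), φ (y i) (y (i + 1)) := by
        unfold Ph
        rw [q0, if_neg n01, add_zero, zero_add, if_pos ⟨rfl, rfl⟩]
      have p2' : Ph r φ y k (y (k + 1)) (y 0) =
          r ^ k * ∏ i ∈ Finset.range (k + 1), φ (y (i + 1)) (y i) := by
        unfold Ph
        rw [q0', if_neg n10, zero_add, zero_add, if_pos ⟨rfl, rfl⟩]
      have p3 : Ph r φ y k (y (k + 1)) (y (k + 2)) = φ (y (k + 1)) (y (k + 2)) := by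
        rw [Ph_off (fun h => y01 h.1.symm) (fun h => y02 h.2.symm), if_neg]
        rintro (h | h)
        · exact y01 h.1.symm
        · exact y02 h.2.symm
      have p3' : Ph r φ y k (y (k + 2)) (y (k + 1)) = φ (y (k + 2)) (y (k + 1)) := by
        rw [Ph_off (fun h => y02 h.1.symm) (fun h => y12 h.1.symm), if_neg]
        rintro (h | h)
        · exact y02 h.1.symm
        · exact y01 h.2.symm
      have hR : Ph r φ y (k + 1) a b =
          (if (a = y 0 ∧ b = y 1) ∨ (a = y 1 ∧ b = y 0) then 0 else φ a b) +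
          ((if a = y 0 ∧ b = y (k + 2) then
            r ^ (k + 1) * ∏ i ∈ Finset.range (k + 1 + 1), φ (y i) (y (i + 1)) else 0) +
          (if a = y (k + 2) ∧ b = y 0 then
            r ^ (k + 1) * ∏ i ∈ Finset.range (k + 1 + 1), φ (y (i + 1)) (y i) else 0)) := by
        unfold Ph
        rw [add_assoc]
      rw [hR, el, p1]
      congr 1
      by_cases c1 : a = y 0 ∧ b = y (k + 2)
      · obtain ⟨rfl, rfl⟩ := c1
        rw [if_pos (Or.inl ⟨rfl, rfl⟩), if_neg n02, add_zero, if_pos ⟨rfl, rfl⟩, p2, p3,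
          Finset.prod_range_succ _ (k + 1)]
        ring
      · by_cases c2 : a = y (k + 2) ∧ b = y 0
        · obtain ⟨rfl, rfl⟩ := c2
          rw [if_pos (Or.inr ⟨rfl, rfl⟩), if_neg n20, zero_add, if_pos ⟨rfl, rfl⟩, p2', p3',
            Finset.prod_range_succ _ (k + 1)]
          ring
        · rw [if_neg (not_or.mpr ⟨c1, c2⟩), if_neg c1, if_neg c2, add_zero]
    · intro t ht ht0 ht2
      obtain ⟨g1, g2⟩ := hnb t ht ht0 ht2
      constructor
      · rw [Ph_off (fun h => ht0 h.1) (fun h => y0 (k + 1) (by omega) (by omega) h.2.symm), g1,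
          ite_self]
      · rw [Ph_off (fun h => y0 (k + 1) (by omega) (by omega) h.1.symm) (fun h => ht0 h.2), g2,
          ite_self]

end Pool.Agent.W839.HM
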