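import Pool.Agent.W894.HT.MDefs

/-!
# Project HM, part SUB: path sums over finite sets
-/

namespace Pool.Agent.W839.HM

open Pool.Agent.W894.HT

variable {N A : Type} [DecidableEq N] [CommRing A]

/-- all words without repetition on `V` -/
def NP (V : List N) : List (List N) := V.sublists'.flatMap List.permutations'

omit [DecidableEq N] in
lemma PR_eq_sum (r : A) (φ : N → N → A) (x e : N) (V : List N) :
    PR r φ x e V = ((NP V).map (fun l => r ^ l.length * wtg φ e x l)).sum := by
  unfold PR NP
  induction V.sublists' with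
  | nil => simp
  | cons S T ih => simp [ih]

omit [DecidableEq N] in
lemma mem_NP {V : List N} (hV : V.Nodup) (l : List N) :
    l ∈ NP V ↔ l.Nodup ∧ ∀ v ∈ l, v ∈ V := by
  unfold NP
  rw [List.mem_flatMap]
  constructor
  · rintro ⟨S, hS, hl⟩
    rw [List.mem_sublists'] at hS
    rw [List.mem_permutations'] at hl
    exact ⟨hl.nodup_iff.mpr (hV.sublist hS), fun v hv => hS.subset (hl.subset hv)⟩
  · rintro ⟨h1, h2⟩
    obtain ⟨S, hS, hS'⟩ := (List.subperm_of_subset h1 h2)
    exact ⟨S, List.mem_sublists'.mpr hS', List.mem_permutations'.mpr hS.symm⟩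

omit [DecidableEq N] in
lemma nodup_NP {V : List N} (hV : V.Nodup) : (NP V).Nodup := by
  unfold NP
  rw [List.nodup_flatMap]
  constructor
  · intro S hS
    rw [List.mem_sublists'] at hS
    exact (List.permutations_perm_permutations' S).nodup_iff.mp
      (List.nodup_permutations S (hV.sublist hS))
  · have h1 : (List.map Multiset.ofList V.sublists').Nodup := by
      have h2 : (V : Multiset N).powerset.Nodup := Multiset.nodup_powerset.mpr (by
        rw [Multiset.coe_nodup]; exact hV)
      rw [Multiset.powerset_coe', Multiset.coe_nodup] at h2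
      exact h2
    rw [List.Nodup, List.pairwise_map] at h1
    refine h1.imp (fun {S S'} hne => ?_)
    intro l h h'
    rw [List.mem_permutations'] at h h'
    exact hne (Multiset.coe_eq_coe.mpr (h.symm.trans h'))

lemma NP_perm {V : List N} (hV : V.Nodup) :
    (NP V).Perm ([] :: V.flatMap (fun v => (NP (V.erase v)).map (List.cons v))) := by
  rw [List.perm_ext_iff_of_nodup (nodup_NP hV)]
  · intro l
    rw [mem_NP hV, List.mem_cons, List.mem_flatMap]
    constructor
    · rintro ⟨h1, h2⟩
      cases l with
      | nil => exact Or.inl rfl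
      | cons v l =>
        refine Or.inr ⟨v, h2 v (List.mem_cons_self ..), ?_⟩
        rw [List.mem_map]
        refine ⟨l, ?_, rfl⟩
        rw [mem_NP (hV.erase v)]
        rw [List.nodup_cons] at h1
        refine ⟨h1.2, fun w hw => ?_⟩
        rw [hV.mem_erase_iff]
        exact ⟨fun h => h1.1 (h ▸ hw), h2 w (List.mem_cons_of_mem _ hw)⟩
    · rintro (rfl | ⟨v, hv, hl⟩)
      · simp
      · rw [List.mem_map] at hl
        obtain ⟨l', hl', rfl⟩ := hl
        rw [mem_NP (hV.erase v)] at hl'
        constructor
        · rw [List.nodup_cons]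
          refine ⟨fun h => ?_, hl'.1⟩
          have := hl'.2 v h
          rw [hV.mem_erase_iff] at this
          exact this.1 rfl
        · intro w hw
          rcases List.mem_cons.mp hw with rfl | hw
          · exact hv
          · exact List.mem_of_mem_erase (hl'.2 w hw)
  · rw [List.nodup_cons]
    constructor
    · simp [List.mem_flatMap]
    · rw [List.nodup_flatMap]
      constructor
      · intro v _
        exact (nodup_NP (hV.erase v)).map (fun a b h => (List.cons.inj h).2)
      · refine hV.imp (fun {v v'} hne => ?_)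
        intro l h h'
        rw [List.mem_map] at h h'
        obtain ⟨a, -, rfl⟩ := h
        obtain ⟨b, -, hb⟩ := h'
        exact hne (List.cons.inj hb).1.symm

/-- path sums over finite sets -/
def PF (r : A) (φ : N → N → A) (e : N) : ℕ → N → Finset N → A
  | 0, x, _ => φ x e
  | n + 1, x, V => φ x e + ∑ v ∈ V, r * φ x v * PF r φ e n v (V.erase v)

lemma PR_rec (r : A) (φ : N → N → A) (x e : N) {V : List N} (hV : V.Nodup) :
    PR r φ x e V = φ x e + (V.map fun v => r * φ x v * PR r φ v e (V.erase v)).sum := by
  rw [PR_eq_sum, ((NP_perm hV).map _).sum_eq, List.map_cons, List.sum_cons]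
  congr 1
  · simp [wtg]
  · have h1 : ∀ W : List N, ((W.flatMap (fun v => (NP (V.erase v)).map (List.cons v))).map
        (fun l => r ^ l.length * wtg φ e x l)).sum =
        (W.map fun v => r * φ x v * PR r φ v e (V.erase v)).sum := by
      intro W
      induction W with
      | nil => simp
      | cons w W ih =>
        rw [List.flatMap_cons, List.map_append, List.sum_append, ih, List.map_cons, List.sum_cons]
        congr 1
        rw [PR_eq_sum, ← List.sum_map_mul_left, List.map_map]
        congr 1
        apply List.map_congr_left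
        intro l _
        simp only [Function.comp_apply, List.length_cons, wtg]
        ring
    exact h1 V

lemma PR_eq_PF (r : A) (φ : N → N → A) (e : N) : ∀ (n : ℕ) (x : N) (V : List N), V.Nodup →
    V.length ≤ n → PR r φ x e V = PF r φ e n x V.toFinset := by
  intro n
  induction n with
  | zero =>
    intro x V hV hn
    have : V = [] := List.length_eq_zero_iff.mp (Nat.le_zero.mp hn)
    subst this
    simp [PR, PF, wtg]
  | succ n ih =>
    intro x V hV hn
    rw [PR_rec r φ x e hV, PF]
    congr 1
    rw [← List.sum_toFinset _ hV]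
    refine Finset.sum_congr rfl fun v hv => ?_
    rw [List.mem_toFinset] at hv
    rw [ih v (V.erase v) (hV.erase v) (by rw [List.length_erase_of_mem hv]; omega)]
    congr 2
    ext w
    rw [List.mem_toFinset, hV.mem_erase_iff, Finset.mem_erase, List.mem_toFinset]

lemma PF_congr (r : A) (φ φ' : N → N → A) (e : N) : ∀ (n : ℕ) (x : N) (V : Finset N),
    V.card ≤ n → x ∉ V →
    (∀ a, a = x ∨ a ∈ V → ∀ b, b = e ∨ b ∈ V → φ a b = φ' a b) →
    PF r φ e n x V = PF r φ' e n x V := by
  intro n
  induction n with
  | zero =>
    intro x V _ _ h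
    exact h x (Or.inl rfl) e (Or.inl rfl)
  | succ n ih =>
    intro x V hn hx h
    rw [PF, PF, h x (Or.inl rfl) e (Or.inl rfl)]
    congr 1
    refine Finset.sum_congr rfl fun v hv => ?_
    rw [h x (Or.inl rfl) v (Or.inr hv), ih v (V.erase v) (by
      rw [Finset.card_erase_of_mem hv]; omega) (Finset.notMem_erase v V)]
    intro a ha b hb
    refine h a (Or.inr ?_) b ?_
    · rcases ha with rfl | ha
      · exact hv
      · exact Finset.mem_of_mem_erase ha
    · rcases hb with rfl | hb
      · exact Or.inl rfl
      · exact Or.inr (Finset.mem_of_mem_erase hb)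

/-- the weights after the elimination of the vertex `z` between `u` and `w` -/
def el (r : A) (φ : N → N → A) (u w z a b : N) : A :=
  φ a b + if (a = u ∧ b = w) ∨ (a = w ∧ b = u) then r * φ a z * φ z b else 0

/-- elimination of a vertex with two neighbours -/
lemma deg2 (r : A) (φ : N → N → A) (e u w z : N) :
    ∀ (n : ℕ) (x : N) (V : Finset N), V.card ≤ n → z ∉ V → x ∉ V → z ≠ x → e ∉ V → x ≠ e →
    (∀ t, t = x ∨ t = e ∨ t ∈ V → t ≠ u → t ≠ w → φ t z = 0 ∧ φ z t = 0) →
    PF r φ e (n + 1) x (insert z V) = PF r (el r φ u w z) e n x V := by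
  intro n
  have hpair : ∀ a b : N, a ≠ b → (a ≠ u → a ≠ w → φ a z = 0) → (b ≠ u → b ≠ w → φ z b = 0) →
      (if (a = u ∧ b = w) ∨ (a = w ∧ b = u) then r * φ a z * φ z b else 0) =
        r * φ a z * φ z b := by
    intro a b hab ha hb
    split_ifs with h
    · rfl
    · by_cases h1 : a = u
      · have h2 : b ≠ w := fun h2 => h (Or.inl ⟨h1, h2⟩)
        have h3 : b ≠ u := fun h3 => hab (h1.trans h3.symm)
        rw [hb h3 h2, mul_zero]
      · by_cases h2 : a = w
        · have h3 : b ≠ u := fun h3 => h (Or.inr ⟨h2, h3⟩)
          have h4 : b ≠ w := fun h4 => hab (h2.trans h4.symm)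
          rw [hb h3 h4, mul_zero]
        · rw [ha h1 h2, mul_zero, zero_mul]
  induction n with
  | zero =>
    intro x V hn hzV hxV hzx heV hxe h
    have hV : V = ∅ := Finset.card_eq_zero.mp (Nat.le_zero.mp hn)
    subst hV
    rw [PF, PF, Finset.sum_insert (Finset.notMem_empty z), Finset.sum_empty, add_zero, PF, el,
      hpair x e hxe (fun h1 h2 => (h x (Or.inl rfl) h1 h2).1)
        (fun h1 h2 => (h e (Or.inr (Or.inl rfl)) h1 h2).2)]
  | succ n ih =>
    intro x V hn hzV hxV hzx heV hxe h
    rw [PF, PF, Finset.sum_insert hzV, Finset.erase_insert hzV]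
    have e1 : ∑ v ∈ V, r * φ x v * PF r φ e (n + 1) v ((insert z V).erase v) =
        ∑ v ∈ V, r * φ x v * PF r (el r φ u w z) e n v (V.erase v) := by
      refine Finset.sum_congr rfl fun v hv => ?_
      have hzv : z ≠ v := fun h => hzV (h ▸ hv)
      rw [Finset.erase_insert_of_ne hzv, ih v (V.erase v) (by
        rw [Finset.card_erase_of_mem hv]; omega) (fun h => hzV (Finset.mem_of_mem_erase h))
        (Finset.notMem_erase v V) hzv (fun h => heV (Finset.mem_of_mem_erase h))
        (fun h => heV (h ▸ hv))]
      intro t ht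
      refine h t ?_
      rcases ht with rfl | rfl | ht
      · exact Or.inr (Or.inr hv)
      · exact Or.inr (Or.inl rfl)
      · exact Or.inr (Or.inr (Finset.mem_of_mem_erase ht))
    have e2 : ∀ v ∈ V, r * el r φ u w z x v * PF r (el r φ u w z) e n v (V.erase v) =
        r * φ x v * PF r (el r φ u w z) e n v (V.erase v) +
        r * φ x z * (r * φ z v * PF r φ e n v (V.erase v)) := by
      intro v hv
      have hxv : x ≠ v := fun h => hxV (h ▸ hv)
      have h1 := hpair x v hxv (fun h1 h2 => (h x (Or.inl rfl) h1 h2).1)
        (fun h1 h2 => (h v (Or.inr (Or.inr hv)) h1 h2).2)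
      have h2 : el r φ u w z x v = φ x v + r * φ x z * φ z v := by
        rw [el, h1]
      by_cases hp : (x = u ∧ v = w) ∨ (x = w ∧ v = u)
      · have h3 : PF r (el r φ u w z) e n v (V.erase v) = PF r φ e n v (V.erase v) := by
          refine PF_congr r _ _ e n v (V.erase v) (by
            rw [Finset.card_erase_of_mem hv]; omega) (Finset.notMem_erase v V) ?_
          intro a ha b hb
          have hax : a ≠ x := by
            rcases ha with rfl | ha
            · exact hxv.symm
            · exact fun h => hxV (h ▸ Finset.mem_of_mem_erase ha)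
          have hbx : b ≠ x := by
            rcases hb with rfl | hb
            · exact hxe.symm
            · exact fun h => hxV (h ▸ Finset.mem_of_mem_erase hb)
          rw [el, if_neg, add_zero]
          rintro (⟨g1, g2⟩ | ⟨g1, g2⟩)
          · rcases hp with ⟨p1, p2⟩ | ⟨p1, p2⟩
            · exact hax (g1.trans p1.symm)
            · exact hbx (g2.trans p1.symm)
          · rcases hp with ⟨p1, p2⟩ | ⟨p1, p2⟩
            · exact hbx (g2.trans p1.symm)
            · exact hax (g1.trans p1.symm)
        rw [h3, h2]
        ring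
      · rw [if_neg hp] at h1
        rw [h2, ← h1, add_zero]
        have h4 : r * φ x z * (r * φ z v * PF r φ e n v (V.erase v)) =
          r * (r * φ x z * φ z v) * PF r φ e n v (V.erase v) := by ring
        rw [h4, ← h1, mul_zero, zero_mul, add_zero]
    rw [e1, PF, el, hpair x e hxe (fun h1 h2 => (h x (Or.inl rfl) h1 h2).1)
        (fun h1 h2 => (h e (Or.inr (Or.inl rfl)) h1 h2).2), Finset.sum_congr rfl e2,
      Finset.sum_add_distrib, ← Finset.mul_sum]
    ring

end Pool.Agent.W839.HM
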