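import Pool.Agent.W839.HM.Chain

/-!
# Project HM, part SUB
-/

namespace Pool.Agent.W839.HM

open Pool.Agent.W894.HT

lemma zn_zn (neg : Bool) (i : ℕ) : zn neg (zn neg i) = i := by
  cases neg
  · rcases i with _ | _ | i <;> simp [zn]
  · simp [zn]

lemma zn_lt {L : ℕ} (hL : 3 ≤ L) (neg : Bool) {i : ℕ} (hi : i < L) : zn neg i < L := by
  unfold zn
  split_ifs <;> omega

lemma zn_inj {neg : Bool} {i j : ℕ} (h : zn neg i = zn neg j) : i = j := by
  rw [← zn_zn neg i, h, zn_zn]

/-- the chain of an edge -/
def yc (c L u w : ℕ) (neg : Bool) : ℕ → ℕ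
  | 0 => u
  | i + 1 => if i < L then c + zn neg i else w

lemma subF_comm (n0 L : ℕ) (El : List (ℕ × ℕ × Bool)) (i j : ℕ) :
    subF n0 L El i j = subF n0 L El j i := by
  unfold subF
  exact Bool.or_comm _ _

lemma subR_low {n0 L : ℕ} (El : List (ℕ × ℕ × Bool)) {i j : ℕ} (h : j < n0) :
    subR n0 L El i j = false := by
  unfold subR
  rw [decide_eq_false (by omega), Bool.false_and]

section

variable {n0 L : ℕ} (hL : 3 ≤ L) (El1 : List (ℕ × ℕ × Bool)) (u w : ℕ) (neg : Bool)

include hL

lemma subR_append {i j : ℕ} (hj : j < n0 + L * El1.length) :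
    subR n0 L (El1 ++ [(u, w, neg)]) i j = subR n0 L El1 i j := by
  by_cases h : j < n0
  · rw [subR_low _ h, subR_low _ h]
  · have h1 : (j - n0) / L < El1.length := by
      rw [Nat.div_lt_iff_lt_mul (by omega), mul_comm]
      omega
    unfold subR
    rw [List.getElem?_append_left h1]

lemma subF_append {i j : ℕ} (hi : i < n0 + L * El1.length) (hj : j < n0 + L * El1.length) :
    subF n0 L (El1 ++ [(u, w, neg)]) i j = subF n0 L El1 i j := by
  unfold subF
  rw [subR_append hL El1 u w neg hi, subR_append hL El1 u w neg hj]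

lemma subR_new {i s : ℕ} (hs : s < L) :
    subR n0 L (El1 ++ [(u, w, neg)]) i (n0 + L * El1.length + s) =
      if i < n0 then (decide (i = u) && decide (zn neg s = 0)) ||
        (decide (i = w) && decide (zn neg s = L - 1))
      else decide ((i - n0) / L = El1.length) &&
        decide (zn neg ((i - n0) % L) + 1 = zn neg s) := by
  have h0 : n0 + L * El1.length + s - n0 = s + L * El1.length := by omega
  have h1 : (n0 + L * El1.length + s - n0) / L = El1.length := by
    rw [h0, Nat.add_mul_div_left _ _ (by omega), Nat.div_eq_of_lt hs, zero_add]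
  have h2 : (n0 + L * El1.length + s - n0) % L = s := by
    rw [h0, Nat.add_mul_mod_self_left, Nat.mod_eq_of_lt hs]
  unfold subR
  rw [h1, h2, decide_eq_true (by omega : n0 ≤ n0 + L * El1.length + s), Bool.true_and]
  simp only [List.getElem?_append_right (le_refl _), Nat.sub_self, List.getElem?_cons_zero]

lemma subF_old_new {a s : ℕ} (hu : u < n0) (hw : w < n0) (ha : a < n0 + L * El1.length)
    (hs : s < L) :
    subF n0 L (El1 ++ [(u, w, neg)]) a (n0 + L * El1.length + s) = true ↔
      (a = u ∧ zn neg s = 0) ∨ (a = w ∧ zn neg s = L - 1) := by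
  unfold subF
  rw [Bool.or_eq_true, subR_new hL El1 u w neg hs]
  by_cases h : a < n0
  · rw [if_pos h, subR_low _ h]
    simp
  · rw [if_neg h]
    have h3 : (a - n0) / L < El1.length := by
      rw [Nat.div_lt_iff_lt_mul (by omega), mul_comm]
      omega
    rw [decide_eq_false (by omega : ¬ (a - n0) / L = El1.length), Bool.false_and]
    constructor
    · rintro (h4 | h4)
      · exact absurd h4 (by simp)
      · exfalso
        unfold subR at h4
        have h0 : n0 + L * El1.length + s - n0 = s + L * El1.length := by omega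
        have h1 : (n0 + L * El1.length + s - n0) / L = El1.length := by
          rw [h0, Nat.add_mul_div_left _ _ (by omega), Nat.div_eq_of_lt hs, zero_add]
        rw [h1] at h4
        split at h4
        · simp at h4
        · rw [if_neg (by omega), decide_eq_false (by omega : ¬ El1.length = (a - n0) / L)] at h4
          simp at h4
    · rintro (⟨h4, -⟩ | ⟨h4, -⟩) <;> omega

lemma subF_new_new {s s' : ℕ} (hs : s < L) (hs' : s' < L) :
    subF n0 L (El1 ++ [(u, w, neg)]) (n0 + L * El1.length + s) (n0 + L * El1.length + s') = true ↔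
      zn neg s + 1 = zn neg s' ∨ zn neg s' + 1 = zn neg s := by
  have h0 : ∀ s, n0 + L * El1.length + s - n0 = s + L * El1.length := by intro s; omega
  have h1 : ∀ s, s < L → (n0 + L * El1.length + s - n0) / L = El1.length := by
    intro s hs
    rw [h0, Nat.add_mul_div_left _ _ (by omega), Nat.div_eq_of_lt hs, zero_add]
  have h2 : ∀ s, s < L → (n0 + L * El1.length + s - n0) % L = s := by
    intro s hs
    rw [h0, Nat.add_mul_mod_self_left, Nat.mod_eq_of_lt hs]
  unfold subF
  rw [Bool.or_eq_true, subR_new hL El1 u w neg hs, subR_new hL El1 u w neg hs',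
    if_neg (by omega), if_neg (by omega), h1 s hs, h1 s' hs', h2 s hs, h2 s' hs']
  simp

end

/-- mixed weights: the edges in `El1` are subdivided, those in `E2` are replaced by their
weights -/
def Wt {A : Type} [CommRing A] (r : A) (n0 L : ℕ) (El1 E2 : List (ℕ × ℕ × Bool)) (a b : ℕ) : A :=
  phi (subF n0 L El1) a b + if a < n0 ∧ b < n0 then r ^ L * gw E2 a b else 0

section

variable {A : Type} [CommRing A] (r : A)

lemma step (n0 L : ℕ) (El1 E2 : List (ℕ × ℕ × Bool)) (u w : ℕ) (neg : Bool)
    (hn0 : 2 ≤ n0) (hL : 3 ≤ L) (hodd : L % 2 = 1) (hu : u < n0) (hw : w < n0) (huw : u ≠ w)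
    (n : ℕ) (hn : n0 + L * El1.length ≤ n) :
    PF r (Wt r n0 L (El1 ++ [(u, w, neg)]) E2) 0 (n + L) 1
      (Finset.Ico 2 (n0 + L * El1.length + L)) =
    PF r (Wt r n0 L El1 ((u, w, neg) :: E2)) 0 n 1 (Finset.Ico 2 (n0 + L * El1.length)) := by
  set c : ℕ := n0 + L * El1.length with hc
  have hcn : n0 ≤ c := Nat.le_add_right _ _
  set φ : ℕ → ℕ → A := Wt r n0 L (El1 ++ [(u, w, neg)]) E2 with hφ
  set y : ℕ → ℕ := yc c L u w neg with hy
  have y_zero : y 0 = u := rfl
  have y_succ : ∀ i, i < L → y (i + 1) = c + zn neg i := fun i hi => by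
    rw [hy]
    exact if_pos hi
  have y_last : y (L + 1) = w := by
    rw [hy]
    exact if_neg (lt_irrefl L)
  have y_ge : ∀ i, 1 ≤ i → i ≤ L → c ≤ y i ∧ y i < c + L := by
    intro i hi hi'
    obtain ⟨j, rfl⟩ : ∃ j, i = j + 1 := ⟨i - 1, by omega⟩
    rw [y_succ j (by omega)]
    have := zn_lt hL neg (i := j) (by omega)
    omega
  -- adjacency
  have adj1 : ∀ a i, a < c → 1 ≤ i → i ≤ L →
      (subF n0 L (El1 ++ [(u, w, neg)]) a (y i) = true ↔ (a = u ∧ i = 1) ∨ (a = w ∧ i = L)) := by
    intro a i ha hi hi'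
    obtain ⟨j, rfl⟩ : ∃ j, i = j + 1 := ⟨i - 1, by omega⟩
    rw [y_succ j (by omega), hc, subF_old_new hL El1 u w neg hu hw ha
      (zn_lt hL neg (by omega)), zn_zn]
    constructor
    · rintro (⟨h1, h2⟩ | ⟨h1, h2⟩)
      · exact Or.inl ⟨h1, by omega⟩
      · exact Or.inr ⟨h1, by omega⟩
    · rintro (⟨h1, h2⟩ | ⟨h1, h2⟩)
      · exact Or.inl ⟨h1, by omega⟩
      · exact Or.inr ⟨h1, by omega⟩
  have adj2 : ∀ i j, 1 ≤ i → i ≤ L → 1 ≤ j → j ≤ L →
      (subF n0 L (El1 ++ [(u, w, neg)]) (y i) (y j) = true ↔ i + 1 = j ∨ j + 1 = i) := by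
    intro i j hi hi' hj hj'
    obtain ⟨i, rfl⟩ : ∃ k, i = k + 1 := ⟨i - 1, by omega⟩
    obtain ⟨j, rfl⟩ : ∃ k, j = k + 1 := ⟨j - 1, by omega⟩
    rw [y_succ i (by omega), y_succ j (by omega), hc, subF_new_new hL El1 u w neg
      (zn_lt hL neg (by omega)) (zn_lt hL neg (by omega)), zn_zn, zn_zn]
    omega
  -- weights next to the chain
  have wt1 : ∀ a b, c ≤ b → φ a b = phi (subF n0 L (El1 ++ [(u, w, neg)])) a b := by
    intro a b hb
    rw [hφ, Wt, if_neg (by omega), add_zero]
  have wt2 : ∀ a b, c ≤ a → φ a b = phi (subF n0 L (El1 ++ [(u, w, neg)])) a b := by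
    intro a b hb
    rw [hφ, Wt, if_neg (by omega), add_zero]
  have ph0 : ∀ (F : ℕ → ℕ → Bool) a b, ¬ F a b = true → phi (A := A) F a b = 0 := by
    intro F a b h
    rw [phi, if_neg h]
  have y_inj : ∀ i j, i ≤ L + 1 → j ≤ L + 1 → y i = y j → i = j := by
    intro i j hi hj h
    rcases Nat.eq_zero_or_pos i with h1 | h1
    · subst h1
      rw [y_zero] at h
      rcases Nat.eq_zero_or_pos j with h2 | h2
      · exact h2.symm
      · rcases Nat.lt_or_ge L j with h3 | h3
        · have : j = L + 1 := by omega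
          subst this
          rw [y_last] at h
          exact absurd h huw
        · have := y_ge j h2 h3
          omega
    · rcases Nat.lt_or_ge L i with h3 | h3
      · have : i = L + 1 := by omega
        subst this
        rw [y_last] at h
        rcases Nat.eq_zero_or_pos j with h2 | h2
        · subst h2
          rw [y_zero] at h
          exact absurd h.symm huw
        · rcases Nat.lt_or_ge L j with h3 | h3
          · omega
          · have := y_ge j h2 h3
            omega
      · have g := y_ge i h1 h3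
        rcases Nat.eq_zero_or_pos j with h2 | h2
        · subst h2
          rw [y_zero] at h
          omega
        · rcases Nat.lt_or_ge L j with h4 | h4
          · have : j = L + 1 := by omega
            subst this
            rw [y_last] at h
            omega
          · obtain ⟨i, rfl⟩ : ∃ k, i = k + 1 := ⟨i - 1, by omega⟩
            obtain ⟨j, rfl⟩ : ∃ k, j = k + 1 := ⟨j - 1, by omega⟩
            rw [y_succ i (by omega), y_succ j (by omega)] at h
            rw [zn_inj (Nat.add_left_cancel h)]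
  have hT : ∀ t, t = 1 ∨ t = 0 ∨ t ∈ Finset.Ico 2 c → t < c := by
    rintro t (h | h | h)
    · omega
    · omega
    · rw [Finset.mem_Ico] at h
      exact h.2
  have hT' : ∀ t, t < c → t = 1 ∨ t = 0 ∨ t ∈ Finset.Ico 2 c := by
    intro t h
    rw [Finset.mem_Ico]
    omega
  have main := chain r φ y 0 1 L n (Finset.Ico 2 c) (by rw [Nat.card_Ico]; omega)
    (by rw [Finset.mem_Ico]; omega) (by rw [Finset.mem_Ico]; omega) (by omega) y_inj
    (by
      intro i hi hi'
      have := y_ge i hi hi'
      rw [Finset.mem_Ico]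
      omega)
    (by rw [y_zero]; exact hT' u (by omega))
    (by
      intro i hi hi' t ht ht1 ht2
      have htc := hT t ht
      have hyi := y_ge i hi hi'
      have hn1 : ¬ subF n0 L (El1 ++ [(u, w, neg)]) t (y i) = true := by
        rw [adj1 t i htc hi hi']
        rintro (⟨h1, h2⟩ | ⟨h1, h2⟩)
        · subst h2
          exact ht1 h1
        · subst h2
          exact ht2 (h1.trans y_last.symm)
      constructor
      · rw [wt1 t _ hyi.1, ph0 _ _ _ hn1]
      · rw [wt2 _ t hyi.1, ph0 _ _ _ (by rwa [subF_comm])])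
    (by
      intro i j hi hi' hj hj' h1 h2
      rw [wt1 _ _ (y_ge j hj hj').1, ph0 _ _ _ (by
        rw [adj2 i j hi hi' hj hj']
        omega)])
    L le_rfl
  rw [Nat.sub_self, add_zero, Finset.Ico_self, Finset.image_empty, Finset.union_empty] at main
  have himg : Finset.Ico 2 c ∪ (Finset.Ico 1 (L + 1)).image y = Finset.Ico 2 (c + L) := by
    ext t
    rw [Finset.mem_union, Finset.mem_image, Finset.mem_Ico, Finset.mem_Ico]
    constructor
    · rintro (h | ⟨i, hi, rfl⟩)
      · omega
      · rw [Finset.mem_Ico] at hi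
        have := y_ge i hi.1 (by omega)
        omega
    · intro h
      rcases Nat.lt_or_ge t c with h1 | h1
      · exact Or.inl ⟨h.1, h1⟩
      · refine Or.inr ⟨zn neg (t - c) + 1, ?_, ?_⟩
        · rw [Finset.mem_Ico]
          have := zn_lt hL neg (i := t - c) (by omega)
          omega
        · rw [y_succ _ (zn_lt hL neg (by omega)), zn_zn]
          omega
  rw [himg] at main
  rw [main]
  -- signs
  have hF : ∀ i, i ≤ L → subF n0 L (El1 ++ [(u, w, neg)]) (y i) (y (i + 1)) = true := by
    intro i hi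
    rcases Nat.eq_zero_or_pos i with h | h
    · subst h
      rw [y_zero, adj1 u (0 + 1) (by omega) (by omega) (by omega)]
      exact Or.inl ⟨rfl, rfl⟩
    · rcases Nat.lt_or_ge i L with h1 | h1
      · rw [adj2 i (i + 1) h hi (by omega) (by omega)]
        exact Or.inl rfl
      · have : i = L := by omega
        subst this
        rw [y_last, subF_comm, adj1 w i (by omega) h hi]
        exact Or.inr ⟨rfl, rfl⟩
  have hlt : ∀ i, i ≤ L → (y i < y (i + 1) ↔ i < L ∧ ¬ (neg = false ∧ i = 1)) := by
    intro i hi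
    rcases Nat.eq_zero_or_pos i with h | h
    · subst h
      have := y_ge 1 (by omega) (by omega)
      rw [y_zero]
      constructor
      · intro _
        exact ⟨by omega, fun h => absurd h.2 (by omega)⟩
      · intro _
        show u < y (0 + 1)
        rw [Nat.zero_add]
        omega
    · rcases Nat.lt_or_ge i L with h1 | h1
      · obtain ⟨j, rfl⟩ : ∃ k, i = k + 1 := ⟨i - 1, by omega⟩
        rw [y_succ j (by omega), y_succ (j + 1) h1]
        unfold zn
        cases neg
        · rcases j with _ | _ | j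
          · simp
          · simp
            omega
          · simp
            omega
        · simp only [if_true]
          simp
          omega
      · have : i = L := by omega
        subst this
        rw [y_last]
        have := y_ge i h hi
        constructor
        · intro _
          omega
        · intro h'
          omega
  have hge : ∀ i, i ≤ L → c ≤ y i ∨ c ≤ y (i + 1) := by
    intro i hi
    rcases Nat.eq_zero_or_pos i with h | h
    · subst h
      exact Or.inr (y_ge 1 (by omega) (by omega)).1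
    · exact Or.inl (y_ge i h hi).1
  have hstepF : ∀ i, i ≤ L → φ (y i) (y (i + 1)) =
      if i < L ∧ ¬ (neg = false ∧ i = 1) then (-1 : A) else 1 := by
    intro i hi
    have h1 : φ (y i) (y (i + 1)) =
        phi (subF n0 L (El1 ++ [(u, w, neg)])) (y i) (y (i + 1)) := by
      rcases hge i hi with h | h
      · exact wt2 _ _ h
      · exact wt1 _ _ h
    rw [h1, phi, if_pos (hF i hi)]
    by_cases h2 : y i < y (i + 1)
    · rw [if_pos h2, if_pos ((hlt i hi).mp h2)]
    · rw [if_neg h2, if_neg (fun h => h2 ((hlt i hi).mpr h))]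
  have hstepB : ∀ i, i ≤ L → φ (y (i + 1)) (y i) =
      if i < L ∧ ¬ (neg = false ∧ i = 1) then (1 : A) else -1 := by
    intro i hi
    have h1 : φ (y (i + 1)) (y i) =
        phi (subF n0 L (El1 ++ [(u, w, neg)])) (y (i + 1)) (y i) := by
      rcases hge i hi with h | h
      · exact wt1 _ _ h
      · exact wt2 _ _ h
    have h3 : y i ≠ y (i + 1) := fun h => by
      have := y_inj _ _ (by omega) (by omega) h
      omega
    rw [h1, phi, if_pos (by rw [subF_comm]; exact hF i hi)]
    by_cases h2 : y i < y (i + 1)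
    · rw [if_neg (by omega), if_pos ((hlt i hi).mp h2)]
    · rw [if_pos (by omega), if_neg (fun h => h2 ((hlt i hi).mpr h))]
  obtain ⟨m, hm⟩ : ∃ m, L = 2 * m + 3 := ⟨(L - 3) / 2, by omega⟩
  have prodgen : ∀ (p q : A), p ^ 2 = 1 → (∏ i ∈ Finset.range (L + 1),
      if i < L ∧ ¬ (neg = false ∧ i = 1) then p else q) = q * (if neg = true then p else q) := by
    intro p q hp
    rw [Finset.prod_range_succ, if_neg (fun h => lt_irrefl L h.1)]
    have e1 : L = (2 * m + 1) + 1 + 1 := by omega
    have e2 : ∏ i ∈ Finset.range L, (if i < L ∧ ¬ (neg = false ∧ i = 1) then p else q) =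
        p ^ (2 * m + 1) * (if neg = true then p else q) * p := by
      conv_lhs => rw [show Finset.range L = Finset.range ((2 * m + 1) + 1 + 1) from by rw [← e1]]
      rw [Finset.prod_range_succ', Finset.prod_range_succ']
      congr 1
      · congr 1
        · rw [Finset.prod_congr rfl (g := fun _ => p) (fun i hi => ?_), Finset.prod_const,
            Finset.card_range]
          rw [Finset.mem_range] at hi
          rw [if_pos ⟨by omega, fun h => absurd h.2 (by omega)⟩]
        · cases neg
          · rw [if_neg (fun h => h.2 ⟨rfl, rfl⟩), if_neg (by simp)]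
          · rw [if_pos ⟨by omega, fun h => by simp at h⟩, if_pos rfl]
      · rw [if_pos ⟨by omega, fun h => absurd h.2 (by omega)⟩]
    rw [e2, pow_add, pow_mul, hp, one_pow, pow_one, one_mul]
    have : p * (if neg = true then p else q) * p * q =
      p ^ 2 * (q * (if neg = true then p else q)) := by ring
    rw [this, hp, one_mul]
  have prodF : ∏ i ∈ Finset.range (L + 1), φ (y i) (y (i + 1)) =
      if neg = true then (-1 : A) else 1 := by
    rw [Finset.prod_congr rfl (fun i hi => hstepF i (by rw [Finset.mem_range] at hi; omega)),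
      prodgen (-1) 1 (by ring), one_mul]
  have prodB : ∏ i ∈ Finset.range (L + 1), φ (y (i + 1)) (y i) =
      if neg = true then (-1 : A) else 1 := by
    rw [Finset.prod_congr rfl (fun i hi => hstepB i (by rw [Finset.mem_range] at hi; omega)),
      prodgen 1 (-1) (by ring)]
    split_ifs <;> ring
  refine PF_congr r _ _ 0 n 1 _ (by rw [Nat.card_Ico]; omega) (by rw [Finset.mem_Ico]; omega) ?_
  intro a ha b hb
  have hac : a < c := hT a (by rcases ha with h | h; exacts [Or.inl h, Or.inr (Or.inr h)])
  have hbc : b < c := hT b (by rcases hb with h | h; exacts [Or.inr (Or.inl h), Or.inr (Or.inr h)])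
  have hy1 := (y_ge 1 (by omega) (by omega)).1
  rw [Ph, prodF, prodB, y_last, y_zero, if_neg (by omega)]
  have hsub : phi (A := A) (subF n0 L (El1 ++ [(u, w, neg)])) a b = phi (subF n0 L El1) a b := by
    unfold phi
    rw [subF_append hL El1 u w neg hac hbc]
  have hgw : gw (A := A) ((u, w, neg) :: E2) a b =
      (if (u = a ∧ w = b) ∨ (u = b ∧ w = a) then (if neg = true then (-1 : A) else 1) else 0) +
        gw E2 a b := by
    unfold gw
    rw [List.map_cons, List.sum_cons]
  rw [hφ, Wt, Wt, hsub, hgw]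
  generalize (if neg = true then (-1 : A) else 1) = σ
  generalize phi (A := A) (subF n0 L El1) a b = P
  generalize gw (A := A) E2 a b = G
  by_cases c1 : a = u ∧ b = w
  · have c3 : a < n0 ∧ b < n0 := ⟨c1.1 ▸ hu, c1.2 ▸ hw⟩
    have c2 : ¬ (a = w ∧ b = u) := fun h => huw (c1.1.symm.trans h.1)
    have c4 : (u = a ∧ w = b) ∨ (u = b ∧ w = a) := Or.inl ⟨c1.1.symm, c1.2.symm⟩
    rw [if_pos c1, if_neg c2, if_pos c3, if_pos c3, if_pos c4]
    ring
  · by_cases c2 : a = w ∧ b = u
    · have c3 : a < n0 ∧ b < n0 := ⟨c2.1 ▸ hw, c2.2 ▸ hu⟩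
      have c4 : (u = a ∧ w = b) ∨ (u = b ∧ w = a) := Or.inr ⟨c2.2.symm, c2.1.symm⟩
      rw [if_neg c1, if_pos c2, if_pos c3, if_pos c3, if_pos c4]
      ring
    · have c4 : ¬ ((u = a ∧ w = b) ∨ (u = b ∧ w = a)) := by
        rintro (⟨h1, h2⟩ | ⟨h1, h2⟩)
        · exact c1 ⟨h1.symm, h2.symm⟩
        · exact c2 ⟨h2.symm, h1.symm⟩
      rw [if_neg c1, if_neg c2, if_neg c4, add_zero, add_zero, zero_add]

lemma all (n0 L : ℕ) (hn0 : 2 ≤ n0) (hL : 3 ≤ L) (hodd : L % 2 = 1) :
    ∀ (El1 E2 : List (ℕ × ℕ × Bool)), (∀ t ∈ El1, t.1 < n0 ∧ t.2.1 < n0 ∧ t.1 ≠ t.2.1) →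
    PF r (Wt r n0 L El1 E2) 0 (n0 + L * El1.length) 1 (Finset.Ico 2 (n0 + L * El1.length)) =
      PF r (Wt r n0 L [] (El1 ++ E2)) 0 n0 1 (Finset.Ico 2 n0) := by
  intro El1
  induction El1 using List.reverseRecOn with
  | nil =>
    intro E2 _
    simp
  | append_singleton El1 t ih =>
    intro E2 h
    obtain ⟨u, w, neg⟩ := t
    have ht := h (u, w, neg) (by simp)
    have e1 : n0 + L * (El1 ++ [(u, w, neg)]).length = n0 + L * El1.length + L := by
      rw [List.length_append, List.length_singleton]
      ring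
    rw [e1, step r n0 L El1 E2 u w neg hn0 hL hodd ht.1 ht.2.1 ht.2.2 _ le_rfl,
      ih ((u, w, neg) :: E2) (fun t ht => h t (List.mem_append_left _ ht)), List.append_assoc]
    rfl

end

lemma Ix_spec : ∀ m : ℕ, (Ix m).Nodup ∧ (Ix m).toFinset = Finset.Ico 2 (m + 2) ∧
    (Ix m).length = m := by
  intro m
  induction m with
  | zero => simp [Ix]
  | succ m ih =>
    obtain ⟨h1, h2, h3⟩ := ih
    have h4 : m + 2 ∉ Ix m := by
      intro h
      rw [← List.mem_toFinset, h2, Finset.mem_Ico] at h
      omega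
    refine ⟨by rw [Ix, List.nodup_cons]; exact ⟨h4, h1⟩, ?_, by rw [Ix, List.length_cons, h3]⟩
    rw [Ix, List.toFinset_cons, h2]
    ext t
    rw [Finset.mem_insert, Finset.mem_Ico, Finset.mem_Ico]
    omega

theorem main : S_SUB := by
  intro A _ r n0 L El hn0 hL hodd hEl _
  obtain ⟨a1, a2, a3⟩ := Ix_spec (n0 - 2 + L * El.length)
  obtain ⟨b1, b2, b3⟩ := Ix_spec (n0 - 2)
  rw [PR_eq_PF r _ 0 (n0 + L * El.length) 1 _ a1 (by rw [a3]; omega), a2,
    PR_eq_PF r _ 0 n0 1 _ b1 (by rw [b3]; omega), b2]
  have e1 : n0 - 2 + L * El.length + 2 = n0 + L * El.length := by omega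
  have e2 : n0 - 2 + 2 = n0 := by omega
  rw [e1, e2]
  have h1 := all r n0 L hn0 hL hodd El [] hEl
  rw [List.append_nil] at h1
  rw [← PF_congr r (Wt r n0 L El []) _ 0 (n0 + L * El.length) 1 _
    (by rw [Nat.card_Ico]; omega) (by rw [Finset.mem_Ico]; omega), h1]
  · refine PF_congr r _ _ 0 n0 1 _ (by rw [Nat.card_Ico]; omega)
      (by rw [Finset.mem_Ico]; omega) ?_
    intro a ha b hb
    have hac : a < n0 := by
      rcases ha with h | h
      · omega
      · rw [Finset.mem_Ico] at h
        exact h.2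
    have hbc : b < n0 := by
      rcases hb with h | h
      · omega
      · rw [Finset.mem_Ico] at h
        exact h.2
    have hf : subF n0 L [] a b = false := by
      unfold subF
      rw [subR_low _ hac, subR_low _ hbc]
      rfl
    rw [Wt, if_pos ⟨hac, hbc⟩, phi, hf, if_neg (by simp), zero_add]
  · intro a _ b _
    rw [Wt]
    simp [gw]

end Pool.Agent.W839.HM
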